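import Mathlib

/-!
# Abstract counting lemma: a family of leaves whose angle is a 1-Lipschitz function (mod 2 pi)
of a real potential of range at most w is counted by a measurable function of integral at most w.
-/

namespace Pool.Qm

open MeasureTheory Set Filter
open scoped ENNReal Topology Real

/-- a set in `[0, 2 pi)` of circular diameter at most `d` (`3 d < 2 pi`) has outer measure
at most `d`. -/
theorem vol_circ {E : Set ℝ} (hE : E ⊆ Ico 0 (2 * π)) {d : ℝ} (hd0 : 0 ≤ d)
    (hd : 3 * d < 2 * π)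
    (h : ∀ x ∈ E, ∀ y ∈ E, ∃ k : ℤ, |y - x + 2 * π * k| ≤ d) :
    volume E ≤ ENNReal.ofReal d := by
  classical
  have hpi : 0 < π := Real.pi_pos
  rcases E.eq_empty_or_nonempty with rfl | ⟨x0, hx0⟩
  · simp
  -- lifts
  have hk : ∀ y ∈ E, ∃ k : ℤ, |y - x0 + 2 * π * k| ≤ d := fun y hy => h x0 hx0 y hy
  set F : Set ℝ := {z : ℝ | ∃ y ∈ E, ∃ k : ℤ, z = y + 2 * π * k ∧ |z - x0| ≤ d} with hF
  have hFd : ∀ z ∈ F, ∀ z' ∈ F, z' - z ≤ d := by
    rintro z ⟨y, hy, k, rfl, h1⟩ z' ⟨y', hy', k', rfl, h2⟩
    obtain ⟨j, hj⟩ := h y hy y' hy'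
    have e : y' - y + 2 * π * j = (y' + 2 * π * k') - (y + 2 * π * k) + 2 * π * ((j - k' + k : ℤ) : ℝ) := by
      push_cast; ring
    rw [e] at hj
    by_cases hz : j - k' + k = 0
    · rw [hz] at hj
      have := (abs_le.1 hj).2
      simpa using this
    · exfalso
      have h3 : (1 : ℝ) ≤ |((j - k' + k : ℤ) : ℝ)| := by
        have := Int.one_le_abs hz
        have h4 : ((1 : ℤ) : ℝ) ≤ ((|j - k' + k| : ℤ) : ℝ) := by exact_mod_cast this
        simpa using h4
      have h1' := abs_le.1 h1
      have h2' := abs_le.1 h2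
      have hj' := abs_le.1 hj
      rcases le_abs.1 h3 with h5 | h5
      · nlinarith [mul_le_mul_of_nonneg_left h5 (by positivity : (0:ℝ) ≤ 2 * π)]
      · nlinarith [mul_le_mul_of_nonneg_left h5 (by positivity : (0:ℝ) ≤ 2 * π)]
  have hFne : F.Nonempty := ⟨x0, x0, hx0, 0, by simp, by simpa using hd0⟩
  have hFbdd : BddBelow F := ⟨x0 - d, by
    rintro z ⟨y, hy, k, rfl, h1⟩
    have := (abs_le.1 h1).1
    linarith⟩
  set u := sInf F with hu
  have hFJ : F ⊆ Icc u (u + d) := by
    intro z hz
    refine ⟨csInf_le hFbdd hz, ?_⟩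
    have : z - d ≤ u := le_csInf hFne (fun z' hz' => by linarith [hFd z' hz' z hz])
    linarith
  -- cover of E by three pieces
  have hcov : E ⊆ ⋃ k ∈ ({-1, 0, 1} : Finset ℤ),
      (fun z : ℝ => z + (- (2 * π * (k : ℝ)))) '' (Icc u (u + d) ∩ Ico (2 * π * (k : ℝ)) (2 * π * (k : ℝ) + 2 * π)) := by
    intro y hy
    obtain ⟨k, hk1⟩ := hk y hy
    have hyF : y + 2 * π * k ∈ F := ⟨y, hy, k, rfl, by
      have : y + 2 * π * k - x0 = y - x0 + 2 * π * k := by ring
      rw [this]; exact hk1⟩
    have hy' := hE hy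
    have hx' := hE hx0
    have hk2 := abs_le.1 hk1
    have hkm : k ∈ ({-1, 0, 1} : Finset ℤ) := by
      have h1 : k ≤ 1 := by
        by_contra hc
        have h6 : (2 : ℤ) ≤ k := by omega
        have h5 : (2 : ℝ) ≤ (k : ℝ) := by exact_mod_cast h6
        nlinarith [mul_le_mul_of_nonneg_left h5 (by positivity : (0:ℝ) ≤ 2 * π), hy'.1, hx'.2]
      have h2 : -1 ≤ k := by
        by_contra hc
        have h6 : k ≤ (-2 : ℤ) := by omega
        have h5 : (k : ℝ) ≤ (-2 : ℝ) := by exact_mod_cast h6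
        nlinarith [mul_le_mul_of_nonneg_left h5 (by positivity : (0:ℝ) ≤ 2 * π), hy'.2, hx'.1]
      simp only [Finset.mem_insert, Finset.mem_singleton]
      omega
    refine mem_iUnion₂.2 ⟨k, hkm, ⟨y + 2 * π * k, ⟨hFJ hyF, ?_, ?_⟩, ?_⟩⟩
    · have := hy'.1; linarith
    · have := hy'.2; linarith
    · simp
  have hmeas : ∀ k : ℤ, MeasurableSet (Icc u (u + d) ∩ Ico (2 * π * (k : ℝ)) (2 * π * (k : ℝ) + 2 * π)) :=
    fun k => measurableSet_Icc.inter measurableSet_Ico
  have hdisj : ∀ j k : ℤ, j < k → Disjoint (Icc u (u + d) ∩ Ico (2 * π * (j : ℝ)) (2 * π * (j : ℝ) + 2 * π))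
      (Icc u (u + d) ∩ Ico (2 * π * (k : ℝ)) (2 * π * (k : ℝ) + 2 * π)) := by
    intro j k hjk
    rw [Set.disjoint_left]
    rintro z ⟨_, hz1⟩ ⟨_, hz2⟩
    have h5 : (j : ℝ) + 1 ≤ (k : ℝ) := by exact_mod_cast hjk
    have := mul_le_mul_of_nonneg_left h5 (by positivity : (0:ℝ) ≤ 2 * π)
    have h1 := hz1.2
    have h2 := hz2.1
    linarith
  have hsum : ∑ k ∈ ({-1, 0, 1} : Finset ℤ), volume (Icc u (u + d) ∩ Ico (2 * π * (k : ℝ)) (2 * π * (k : ℝ) + 2 * π))
      ≤ volume (Icc u (u + d)) := by
    rw [← measure_biUnion_finset]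
    · exact measure_mono (iUnion₂_subset fun k _ => inter_subset_left)
    · intro j _ k _ hjk
      rcases lt_or_gt_of_ne hjk with h1 | h1
      · exact hdisj j k h1
      · exact (hdisj k j h1).symm
    · intro k _; exact hmeas k
  calc volume E ≤ volume (⋃ k ∈ ({-1, 0, 1} : Finset ℤ),
      (fun z : ℝ => z + (- (2 * π * (k : ℝ)))) '' (Icc u (u + d) ∩ Ico (2 * π * (k : ℝ)) (2 * π * (k : ℝ) + 2 * π))) :=
        measure_mono hcov
    _ ≤ ∑ k ∈ ({-1, 0, 1} : Finset ℤ), volume ((fun z : ℝ => z + (- (2 * π * (k : ℝ)))) '' (Icc u (u + d) ∩ Ico (2 * π * (k : ℝ)) (2 * π * (k : ℝ) + 2 * π))) :=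
        measure_biUnion_finset_le _ _
    _ = ∑ k ∈ ({-1, 0, 1} : Finset ℤ), volume (Icc u (u + d) ∩ Ico (2 * π * (k : ℝ)) (2 * π * (k : ℝ) + 2 * π)) := by
        refine Finset.sum_congr rfl fun k _ => ?_
        rw [image_add_right, measure_preimage_add_right]
    _ ≤ volume (Icc u (u + d)) := hsum
    _ = ENNReal.ofReal d := by rw [Real.volume_Icc]; congr 1; ring

/-- the abstract counting lemma. -/
theorem count_le {L : Type*} (ang G : L → ℝ) (p w : ℝ) (hw : 0 ≤ w)
    (hG : ∀ l, G l ∈ Icc p (p + w)) (hang : ∀ l, ang l ∈ Ico 0 (2 * π))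
    (hlip : ∀ l l', ∃ k : ℤ, |ang l' - ang l + 2 * π * k| ≤ |G l' - G l|)
    (hinj : ∀ l l', ang l = ang l' → G l = G l' → l = l') :
    ∃ N : ℝ → ℝ≥0∞, Measurable N ∧ (∀ a, (({l | ang l = a}.encard : ℕ∞) : ℝ≥0∞) ≤ N a) ∧
      ∫⁻ a, N a ≤ ENNReal.ofReal w := by
  classical
  have hpi : 0 < π := Real.pi_pos
  -- pieces
  let E : ℕ → ℕ → Set ℝ := fun n i =>
    {a | ∃ l, ang l = a ∧ p + w * i / (n + 1) ≤ G l ∧ G l ≤ p + w * (i + 1) / (n + 1)}
  have hE : ∀ n i, E n i ⊆ Ico 0 (2 * π) := by
    rintro n i a ⟨l, rfl, _⟩; exact hang l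
  have hvol : ∀ n i : ℕ, 3 * (w / (n + 1)) < 2 * π → volume (E n i) ≤ ENNReal.ofReal (w / (n + 1)) := by
    intro n i hn
    refine vol_circ (hE n i) (by positivity) hn ?_
    rintro x ⟨l, rfl, h1, h2⟩ y ⟨l', rfl, h3, h4⟩
    obtain ⟨k, hk⟩ := hlip l l'
    refine ⟨k, hk.trans ?_⟩
    have e : p + w * (i + 1) / (n + 1) = p + w * i / (n + 1) + w / (n + 1) := by ring
    rw [abs_le]; constructor <;> linarith
  let N : ℕ → ℝ → ℝ≥0∞ := fun n a =>
    ∑ i ∈ Finset.range (n + 1), (toMeasurable volume (E n i)).indicator (fun _ => (1 : ℝ≥0∞)) a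
  have hNmeas : ∀ n, Measurable (N n) := by
    intro n
    refine Finset.measurable_sum _ (fun i _ => ?_)
    exact measurable_const.indicator (measurableSet_toMeasurable _ _)
  have hNint : ∀ n : ℕ, 3 * (w / (n + 1)) < 2 * π → ∫⁻ a, N n a ≤ ENNReal.ofReal w := by
    intro n hn
    rw [lintegral_finsetSum _ (fun i _ => measurable_const.indicator (measurableSet_toMeasurable _ _))]
    have h1 : ∀ i ∈ Finset.range (n + 1), ∫⁻ a, (toMeasurable volume (E n i)).indicator (fun _ => (1 : ℝ≥0∞)) a
        ≤ ENNReal.ofReal (w / (n + 1)) := by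
      intro i _
      rw [lintegral_indicator (measurableSet_toMeasurable _ _)]
      simp only [lintegral_const, Measure.restrict_apply MeasurableSet.univ, univ_inter, one_mul,
        measure_toMeasurable]
      exact hvol n i hn
    refine (Finset.sum_le_sum h1).trans ?_
    rw [Finset.sum_const, Finset.card_range, nsmul_eq_mul, ← ENNReal.ofReal_natCast,
      ← ENNReal.ofReal_mul (by positivity)]
    refine ENNReal.ofReal_le_ofReal ?_
    push_cast
    field_simp
    exact le_refl _
  refine ⟨fun a => liminf (fun n => N n a) atTop, .liminf hNmeas, ?_, ?_⟩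
  · intro a
    -- it suffices to bound every finite subset
    have key : ∀ S : Finset L, (∀ l ∈ S, ang l = a) →
        ((S.card : ℕ) : ℝ≥0∞) ≤ liminf (fun n => N n a) atTop := by
      intro S hS
      have hpiece : ∀ (n : ℕ) (x : ℝ), x ∈ Icc p (p + w) →
          ∃ i ∈ Finset.range (n + 1), p + w * (i : ℕ) / (n + 1) ≤ x ∧ x ≤ p + w * ((i : ℕ) + 1) / (n + 1) := by
        intro n x hx
        rcases hw.eq_or_lt with hw0 | hw0
        · refine ⟨0, by simp, ?_, ?_⟩ <;> simp [← hw0] at hx ⊢ <;> linarith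
        · have hx0 : 0 ≤ (x - p) * (n + 1) / w := by
            have := hx.1
            have h1 : 0 ≤ x - p := by linarith
            positivity
          have hx1 : (x - p) * (n + 1) / w ≤ n + 1 := by
            rw [div_le_iff₀ hw0]
            have := hx.2
            have h1 : x - p ≤ w := by linarith
            have h2 : (0 : ℝ) ≤ (n : ℝ) + 1 := by positivity
            nlinarith
          by_cases hlt : (x - p) * (n + 1) / w < n + 1
          · refine ⟨⌊(x - p) * (n + 1) / w⌋₊, ?_, ?_, ?_⟩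
            · rw [Finset.mem_range]
              rw [Nat.floor_lt hx0]
              exact_mod_cast hlt
            · have h1 := Nat.floor_le hx0
              have h2 : w * (⌊(x - p) * (n + 1) / w⌋₊ : ℝ) ≤ (x - p) * (n + 1) := by
                rw [le_div_iff₀ hw0] at h1; linarith
              have h3 : w * (⌊(x - p) * (n + 1) / w⌋₊ : ℝ) / (n + 1) ≤ x - p := by
                rw [div_le_iff₀ (by positivity)]; exact h2
              linarith
            · have h1 := (Nat.lt_floor_add_one ((x - p) * (n + 1) / w)).le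
              have h2 : (x - p) * (n + 1) ≤ w * ((⌊(x - p) * (n + 1) / w⌋₊ : ℝ) + 1) := by
                rw [div_le_iff₀ hw0] at h1; linarith
              have h3 : x - p ≤ w * ((⌊(x - p) * (n + 1) / w⌋₊ : ℝ) + 1) / (n + 1) := by
                rw [le_div_iff₀ (by positivity)]; exact h2
              linarith
          · have heq : (x - p) * (n + 1) / w = n + 1 := le_antisymm hx1 (not_lt.1 hlt)
            have heq2 : x - p = w := by
              rw [div_eq_iff hw0.ne'] at heq
              have h2 : (0 : ℝ) < (n : ℝ) + 1 := by positivity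
              exact mul_right_cancel₀ h2.ne' (by linarith)
            refine ⟨n, by simp, ?_, ?_⟩
            · have h3 : w * (n : ℝ) / (n + 1) ≤ w := by
                rw [div_le_iff₀ (by positivity)]; nlinarith
              linarith
            · have h3 : w * ((n : ℝ) + 1) / (n + 1) = w := by
                field_simp
              linarith
      -- separation
      obtain ⟨e, he0, he⟩ : ∃ e : ℝ, 0 < e ∧ ∀ l ∈ S, ∀ l' ∈ S, l ≠ l' → e ≤ |G l - G l'| := by
        by_cases hoff : (S.offDiag).Nonempty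
        · obtain ⟨m, hm, hmin⟩ := Finset.exists_min_image S.offDiag (fun q => |G q.1 - G q.2|) hoff
          refine ⟨|G m.1 - G m.2|, ?_, ?_⟩
          · rw [abs_pos, sub_ne_zero]
            intro hEq
            have hm' := Finset.mem_offDiag.1 hm
            exact hm'.2.2 (hinj _ _ ((hS _ hm'.1).trans (hS _ hm'.2.1).symm) hEq)
          · intro l hl l' hl' hne
            exact hmin (l, l') (Finset.mem_offDiag.2 ⟨hl, hl', hne⟩)
        · refine ⟨1, one_pos, fun l hl l' hl' hne => ?_⟩
          exact absurd ⟨(l, l'), Finset.mem_offDiag.2 ⟨hl, hl', hne⟩⟩ hoff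
      have hlim : Tendsto (fun n : ℕ => w / ((n : ℝ) + 1)) atTop (𝓝 0) := by
        have h2 : Tendsto (fun n : ℕ => w * (1 / ((n : ℝ) + 1))) atTop (𝓝 (w * 0)) :=
          tendsto_one_div_add_atTop_nhds_zero_nat.const_mul _
        rw [mul_zero] at h2
        refine h2.congr (fun n => by ring)
      have hev : ∀ᶠ n : ℕ in atTop, ((S.card : ℕ) : ℝ≥0∞) ≤ N n a := by
        filter_upwards [hlim.eventually (gt_mem_nhds he0)] with n hn
        have hch : ∀ l : L, ∃ i ∈ Finset.range (n + 1), p + w * (i : ℕ) / (n + 1) ≤ G l ∧ G l ≤ p + w * ((i : ℕ) + 1) / (n + 1) :=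
          fun l => hpiece n (G l) (hG l)
        choose idx hidx1 hidx2 hidx3 using hch
        have hinjS : Set.InjOn idx S := by
          intro l hl l' hl' hEq
          by_contra hne
          have h1 := he l hl l' hl' hne
          have h2 := hidx2 l
          have h3 := hidx3 l
          have h4 := hidx2 l'
          have h5 := hidx3 l'
          rw [hEq] at h2 h3
          have e1 : p + w * ((idx l' : ℝ) + 1) / (n + 1) = p + w * (idx l' : ℝ) / (n + 1) + w / (n + 1) := by ring
          have h6 : |G l - G l'| ≤ w / (n + 1) := by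
            rw [abs_le]; constructor <;> linarith
          linarith
        have hcard : (S.image idx).card = S.card := Finset.card_image_of_injOn hinjS
        rw [← hcard]
        have hsub : S.image idx ⊆ Finset.range (n + 1) := by
          intro i hi
          obtain ⟨l, _, rfl⟩ := Finset.mem_image.1 hi
          exact hidx1 l
        calc (((S.image idx).card : ℕ) : ℝ≥0∞) = ∑ i ∈ S.image idx, (1 : ℝ≥0∞) := by simp
          _ ≤ ∑ i ∈ S.image idx, (toMeasurable volume (E n i)).indicator (fun _ => (1 : ℝ≥0∞)) a := by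
              refine Finset.sum_le_sum fun i hi => ?_
              obtain ⟨l, hl, rfl⟩ := Finset.mem_image.1 hi
              have hmem : a ∈ toMeasurable volume (E n (idx l)) :=
                subset_toMeasurable _ _ ⟨l, hS l hl, hidx2 l, hidx3 l⟩
              rw [indicator_of_mem hmem]
          _ ≤ N n a := Finset.sum_le_sum_of_subset hsub
      exact le_liminf_of_le (by isBoundedDefault) hev
    rcases Set.finite_or_infinite {l | ang l = a} with hfin | hinf
    · have h1 := key hfin.toFinset (fun l hl => by simpa using hl)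
      rw [hfin.encard_eq_coe_toFinset_card]
      simpa using h1
    · have h2 : ∀ m : ℕ, (m : ℝ≥0∞) ≤ liminf (fun n => N n a) atTop := by
        intro m
        obtain ⟨S, hS1, hS2⟩ := hinf.exists_subset_card_eq m
        have := key S (fun l hl => hS1 hl)
        rwa [hS2] at this
      have h3 : liminf (fun n => N n a) atTop = ⊤ := by
        by_contra hne
        obtain ⟨m, hm⟩ := ENNReal.exists_nat_gt hne
        exact absurd (h2 m) (not_le.2 hm)
      show _ ≤ liminf (fun n => N n a) atTop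
      rw [h3]; exact le_top
  · have h1 : ∫⁻ a, liminf (fun n => N n a) atTop ≤ liminf (fun n => ∫⁻ a, N n a) atTop :=
      lintegral_liminf_le hNmeas
    refine h1.trans ?_
    have hev : ∀ᶠ n : ℕ in atTop, ∫⁻ a, N n a ≤ ENNReal.ofReal w := by
      have : Tendsto (fun n : ℕ => 3 * (w / ((n : ℝ) + 1))) atTop (𝓝 0) := by
        have h2 : Tendsto (fun n : ℕ => 3 * w * (1 / ((n : ℝ) + 1))) atTop (𝓝 (3 * w * 0)) :=
          tendsto_one_div_add_atTop_nhds_zero_nat.const_mul _
        rw [mul_zero] at h2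
        refine h2.congr (fun n => by ring)
      have h3 := this.eventually (gt_mem_nhds (by positivity : (0:ℝ) < 2 * π))
      filter_upwards [h3] with n hn using hNint n hn
    exact liminf_le_of_frequently_le hev.frequently

end Pool.Qm
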