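import Mathlib
import Pool.Agent.Lib.MP_95e7ec_an.AvgDefs
import Pool.Agent.Lib.MP_95e7ec_an.Orbits
import Pool.Agent.Lib.MP_95e7ec_an.Hull

/-!
# Closed orbits of quadratic planar fields are strictly convex curves

`quad_star`: for a closed orbit `C` of a quadratic planar field `v` there are a zero `q` of `v` in
the convex hull of `C` and a sign `sg` with `sg * det2 (v z) (w - z) > 0` for all `z ≠ w` in `C`
and `sg * det2 (z - q) (v z) > 0` for all `z ∈ C`.

No Jordan curve theorem is used: the curve has no inflection point, no bitangent, and the set of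
the points where the curve is on one side of the tangent is open and closed.
-/

set_option autoImplicit false

open Set Filter Topology

namespace Pool.Agent.Lib.MP_95e7ec_an

/-- The planar field with components of degree at most two and coefficients `a`, `b`. -/
def qv (a b : Fin 6 → ℝ) (z : ℝ × ℝ) : ℝ × ℝ :=
  (a 0 + a 1 * z.1 + a 2 * z.2 + a 3 * z.1 ^ 2 + a 4 * (z.1 * z.2) + a 5 * z.2 ^ 2,
    b 0 + b 1 * z.1 + b 2 * z.2 + b 3 * z.1 ^ 2 + b 4 * (z.1 * z.2) + b 5 * z.2 ^ 2)

/-- The derivative of `qv a b` at `z` in the direction `w`. -/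
def qD (a b : Fin 6 → ℝ) (z w : ℝ × ℝ) : ℝ × ℝ :=
  (a 1 * w.1 + a 2 * w.2 + 2 * a 3 * (z.1 * w.1) + a 4 * (z.1 * w.2 + z.2 * w.1) +
      2 * a 5 * (z.2 * w.2),
    b 1 * w.1 + b 2 * w.2 + 2 * b 3 * (z.1 * w.1) + b 4 * (z.1 * w.2 + z.2 * w.1) +
      2 * b 5 * (z.2 * w.2))

/-- The quadratic part of `qv a b`. -/
def qQ (a b : Fin 6 → ℝ) (w : ℝ × ℝ) : ℝ × ℝ :=
  (a 3 * w.1 ^ 2 + a 4 * (w.1 * w.2) + a 5 * w.2 ^ 2,
    b 3 * w.1 ^ 2 + b 4 * (w.1 * w.2) + b 5 * w.2 ^ 2)

theorem contDiff_qv (a b : Fin 6 → ℝ) {n : WithTop ℕ∞} : ContDiff ℝ n (qv a b) := by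
  unfold qv
  fun_prop

theorem qv_neg (a b : Fin 6 → ℝ) : qv (-a) (-b) = fun z => -qv a b z := by
  funext z
  ext <;> simp [qv] <;> ring

theorem qD_neg (a b : Fin 6 → ℝ) (z w : ℝ × ℝ) : qD (-a) (-b) z w = -qD a b z w := by
  ext <;> simp [qD] <;> ring

/-- Taylor's formula in the coordinates `x`, `y` with respect to `e`, `nrm e`, for the component
orthogonal to `e`. -/
theorem geo_taylor (a b : Fin 6 → ℝ) (z e : ℝ × ℝ) (x y : ℝ) :
    det2 e (qv a b (z + x • e + y • nrm e)) =
      det2 e (qv a b z) + x * det2 e (qD a b z e) + x ^ 2 * det2 e (qQ a b e) +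
        y * (det2 e (qD a b z (nrm e)) + x * det2 e (qD a b e (nrm e) - qD a b 0 (nrm e)) +
          y * det2 e (qQ a b (nrm e))) := by
  simp only [det2, qv, qD, qQ, nrm, Prod.fst_add, Prod.snd_add, Prod.smul_fst, Prod.smul_snd,
    smul_eq_mul, Prod.fst_sub, Prod.snd_sub, Prod.fst_zero, Prod.snd_zero]
  ring

theorem geo_decomp {e : ℝ × ℝ} (he : e ≠ 0) (w : ℝ × ℝ) :
    w = (dot e w / dot e e) • e + (det2 e w / dot e e) • nrm e := by
  have h : dot e e ≠ 0 := by
    intro h
    apply he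
    simp only [dot] at h
    have h1 : e.1 = 0 := by nlinarith [sq_nonneg e.1, sq_nonneg e.2]
    have h2 : e.2 = 0 := by nlinarith [sq_nonneg e.1, sq_nonneg e.2]
    exact Prod.ext h1 h2
  ext
  · simp only [Prod.fst_add, Prod.smul_fst, smul_eq_mul, nrm, det2]
    rw [div_mul_eq_mul_div, div_mul_eq_mul_div, ← add_div, eq_div_iff h]
    simp only [dot]
    ring
  · simp only [Prod.snd_add, Prod.smul_snd, smul_eq_mul, nrm, det2]
    rw [div_mul_eq_mul_div, div_mul_eq_mul_div, ← add_div, eq_div_iff h]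
    simp only [dot]
    ring

theorem geo_dot_pos {e : ℝ × ℝ} (he : e ≠ 0) : 0 < dot e e := by
  simp only [dot]
  rcases eq_or_ne e.1 0 with h1 | h1
  · have h2 : e.2 ≠ 0 := fun h2 => he (Prod.ext h1 h2)
    have := mul_self_pos.mpr h2
    nlinarith [mul_self_nonneg e.1]
  · have := mul_self_pos.mpr h1
    nlinarith [mul_self_nonneg e.2]

theorem hasDerivAt_det2_right {u : ℝ × ℝ} {f : ℝ → ℝ × ℝ} {f' : ℝ × ℝ} {t : ℝ}
    (hf : HasDerivAt f f' t) : HasDerivAt (fun t => det2 u (f t)) (det2 u f') t := by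
  have h1 : HasDerivAt (fun t => (f t).1) f'.1 t :=
    (hasFDerivAt_fst (p := f t)).comp_hasDerivAt t hf
  have h2 : HasDerivAt (fun t => (f t).2) f'.2 t :=
    (hasFDerivAt_snd (p := f t)).comp_hasDerivAt t hf
  simp only [det2]
  exact (h2.const_mul u.1).sub (h1.const_mul u.2)

theorem hasDerivAt_dot_right {u : ℝ × ℝ} {f : ℝ → ℝ × ℝ} {f' : ℝ × ℝ} {t : ℝ}
    (hf : HasDerivAt f f' t) : HasDerivAt (fun t => dot u (f t)) (dot u f') t := by
  have h1 : HasDerivAt (fun t => (f t).1) f'.1 t :=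
    (hasFDerivAt_fst (p := f t)).comp_hasDerivAt t hf
  have h2 : HasDerivAt (fun t => (f t).2) f'.2 t :=
    (hasFDerivAt_snd (p := f t)).comp_hasDerivAt t hf
  simp only [dot]
  exact (h1.const_mul u.1).add (h2.const_mul u.2)

/-- An integral curve parametrised with its first return time. -/
structure GeoCurve (v : ℝ × ℝ → ℝ × ℝ) (γ : ℝ → ℝ × ℝ) (T : ℝ) : Prop where
  T_pos : 0 < T
  deriv : ∀ t, HasDerivAt γ (v (γ t)) t
  per : ∀ t, γ (t + T) = γ t
  inj : ∀ s r : ℝ, 0 < r → r < T → γ (s + r) ≠ γ s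
  ne : ∀ t, v (γ t) ≠ 0

theorem exists_geoCurve {v : ℝ × ℝ → ℝ × ℝ} (hv : ContDiff ℝ 1 v) {C : Set (ℝ × ℝ)}
    (hC : IsClosedOrbit v C) : ∃ γ T, GeoCurve v γ T ∧ C = Set.range γ := by
  obtain ⟨p0, hp0⟩ := hC.nonempty
  obtain ⟨γ, T, hT, hγ, hper, hγ0, hCr, hmin⟩ := hC.exists_param_of_contDiff hv hp0
  refine ⟨γ, T, ⟨hT, hγ, hper, ?_, ?_⟩, hCr⟩
  · intro s r hr hrT h
    have h1 := curve_unique_of_contDiff hv (hasDerivAt_shift hγ (s + r)) (hasDerivAt_shift hγ s)
      (by simpa using h)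
    have h2 := congrFun h1 (-s)
    simp only [neg_add_cancel, neg_add_cancel_left] at h2
    exact hmin r ⟨hr, hrT⟩ (by rw [h2, hγ0])
  · intro t
    exact hC.ne_zero_of_contDiff hv (by rw [hCr]; exact ⟨t, rfl⟩)

namespace GeoCurve

variable {v : ℝ × ℝ → ℝ × ℝ} {γ : ℝ → ℝ × ℝ} {T : ℝ}

theorem cont (h : GeoCurve v γ T) : Continuous γ :=
  continuous_iff_continuousAt.2 fun t => (h.deriv t).continuousAt

theorem periodic (h : GeoCurve v γ T) : Function.Periodic γ T := h.per

theorem exists_mem (h : GeoCurve v γ T) (s t : ℝ) : ∃ t' ∈ Set.Ico s (s + T), γ t' = γ t := by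
  obtain ⟨t', ht', he⟩ := h.periodic.exists_mem_Ico h.T_pos t s
  exact ⟨t', ht', he.symm⟩

/-- maximum of a continuous function along the curve -/
theorem exists_max (h : GeoCurve v γ T) {f : ℝ × ℝ → ℝ} (hf : Continuous f) :
    ∃ t0, ∀ t, f (γ t) ≤ f (γ t0) := by
  obtain ⟨t0, -, ht0⟩ := (isCompact_Icc (a := (0 : ℝ)) (b := 0 + T)).exists_isMaxOn
    ⟨0, by simp [h.T_pos.le]⟩ ((hf.comp h.cont).continuousOn)
  refine ⟨t0, fun t => ?_⟩
  obtain ⟨t', ht', he⟩ := h.exists_mem 0 t
  rw [← he]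
  exact ht0 (Ico_subset_Icc_self ht')

end GeoCurve

/-- (a) no inflection point -/
theorem geo_no_inflection {a b : Fin 6 → ℝ} {γ : ℝ → ℝ × ℝ} {T : ℝ}
    (h : GeoCurve (qv a b) γ T) (s : ℝ) :
    det2 (qv a b (γ s)) (qD a b (γ s) (qv a b (γ s))) ≠ 0 := by
  intro hk
  set e := qv a b (γ s) with he
  have hene : e ≠ 0 := h.ne s
  have hn : 0 < dot e e := geo_dot_pos hene
  set n := dot e e with hndef
  let x : ℝ → ℝ := fun t => dot e (γ t - γ s) / n
  let y : ℝ → ℝ := fun t => det2 e (γ t - γ s) / n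
  have hγc := h.cont
  have hvc : Continuous (qv a b) := (contDiff_qv a b (n := 1)).continuous
  have hxc : Continuous x := by
    simp only [x, dot]
    fun_prop
  have hyc : Continuous y := by
    simp only [y, det2]
    fun_prop
  have hdec : ∀ t, γ t = γ s + x t • e + y t • nrm e := by
    intro t
    have := geo_decomp hene (γ t - γ s)
    rw [add_assoc, ← this]
    abel
  set c := det2 e (qQ a b e) with hc
  let g : ℝ → ℝ := fun t => (det2 e (qD a b (γ s) (nrm e)) +
    x t * det2 e (qD a b e (nrm e) - qD a b 0 (nrm e)) + y t * det2 e (qQ a b (nrm e))) / n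
  have hgc : Continuous g := by
    simp only [g]
    fun_prop
  have hdy : ∀ t, HasDerivAt y (c / n * x t ^ 2 + y t * g t) t := by
    intro t
    have h1 : HasDerivAt y (det2 e (qv a b (γ t)) / n) t :=
      (hasDerivAt_det2_right ((h.deriv t).sub_const (γ s))).div_const n
    have h2 : det2 e (qv a b (γ t)) / n = c / n * x t ^ 2 + y t * g t := by
      conv_lhs => rw [hdec t]
      rw [geo_taylor, ← he, hk]
      have : det2 e e = 0 := by simp only [det2]; ring
      rw [this]
      simp only [g, hc]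
      ring
    rw [← h2]
    exact h1
  have hdx : ∀ t, HasDerivAt x (dot e (qv a b (γ t)) / n) t := fun t =>
    (hasDerivAt_dot_right ((h.deriv t).sub_const (γ s))).div_const n
  -- the integrating factor
  let G : ℝ → ℝ := fun t => ∫ r in s..t, g r
  have hG : ∀ t, HasDerivAt G (g t) t := fun t =>
    intervalIntegral.integral_hasDerivAt_right (hgc.intervalIntegrable _ _)
      (hgc.stronglyMeasurableAtFilter _ _) hgc.continuousAt
  let u : ℝ → ℝ := fun t => y t * Real.exp (-G t)
  have hu : ∀ t, HasDerivAt u (c / n * x t ^ 2 * Real.exp (-G t)) t := by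
    intro t
    have h1 := (hdy t).mul (hG t).neg.exp
    refine h1.congr_deriv ?_
    simp only [Pi.neg_apply]
    ring
  have hy0 : y s = 0 := by simp [y, det2]
  have hyT : y (s + T) = 0 := by simp [y, det2, h.per s]
  have hus : u s = 0 := by simp [u, hy0]
  have huT : u (s + T) = 0 := by simp [u, hyT]
  have hudiff : Differentiable ℝ u := fun t => (hu t).differentiableAt
  have hTp := h.T_pos
  have huz : ∀ t ∈ Set.Icc s (s + T), u t = 0 := by
    intro t ht
    rcases le_total 0 c with hc0 | hc0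
    · have hm : Monotone u := monotone_of_deriv_nonneg hudiff (fun t => by
        rw [(hu t).deriv]; positivity)
      exact le_antisymm ((hm ht.2).trans_eq huT) (hus.symm.trans_le (hm ht.1))
    · have hm : Antitone u := antitone_of_deriv_nonpos hudiff (fun t => by
        rw [(hu t).deriv]
        have h1 : c / n ≤ 0 := div_nonpos_of_nonpos_of_nonneg hc0 hn.le
        have h2 : 0 ≤ x t ^ 2 * Real.exp (-G t) := by positivity
        nlinarith)
      exact le_antisymm ((hm ht.1).trans_eq hus) (huT.symm.trans_le (hm ht.2))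
  have hyz : ∀ t, y t = 0 := by
    intro t
    obtain ⟨t', ht', het⟩ := h.exists_mem s t
    have h1 : y t = y t' := by simp only [y, het]
    have h2 := huz t' (Ico_subset_Icc_self ht')
    simp only [u, mul_eq_zero, Real.exp_ne_zero, or_false] at h2
    rw [h1, h2]
  -- the maximum of `x`
  obtain ⟨t0, ht0⟩ := h.exists_max (f := fun z => dot e (z - γ s) / n) (by
    simp only [dot]; fun_prop)
  have hx0 : dot e (qv a b (γ t0)) / n = 0 := by
    have hmax : IsLocalMax x t0 := Filter.Eventually.of_forall fun t => ht0 t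
    exact hmax.hasDerivAt_eq_zero (hdx t0)
  have hy0' : det2 e (qv a b (γ t0)) / n = 0 := by
    have h1 : HasDerivAt y (det2 e (qv a b (γ t0)) / n) t0 :=
      (hasDerivAt_det2_right ((h.deriv t0).sub_const (γ s))).div_const n
    have h2 : HasDerivAt y 0 t0 := by
      have : y = fun _ => 0 := funext hyz
      rw [this]
      exact hasDerivAt_const t0 0
    exact h1.unique h2
  apply h.ne t0
  rw [geo_decomp hene (qv a b (γ t0)), ← hndef, hx0, hy0', zero_smul, zero_smul, add_zero]

/-- (b) no bitangent -/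
theorem geo_no_bitangent {a b : Fin 6 → ℝ} {γ : ℝ → ℝ × ℝ} {T : ℝ}
    (h : GeoCurve (qv a b) γ T) (hk : ∀ t, 0 < det2 (qv a b (γ t)) (qD a b (γ t) (qv a b (γ t))))
    {s t : ℝ} (hst : γ t ≠ γ s) (h1 : det2 (qv a b (γ s)) (γ t - γ s) = 0)
    (h2 : det2 (qv a b (γ s)) (qv a b (γ t)) = 0) : False := by
  set e := qv a b (γ s) with he
  have hene : e ≠ 0 := h.ne s
  have hn : 0 < dot e e := geo_dot_pos hene
  have d1 := geo_decomp hene (γ t - γ s)
  rw [h1, zero_div, zero_smul, add_zero] at d1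
  have d2 := geo_decomp hene (qv a b (γ t))
  rw [h2, zero_div, zero_smul, add_zero] at d2
  set x := dot e (γ t - γ s) / dot e e with hx
  set m := dot e (qv a b (γ t)) / dot e e with hm
  have hx0 : x ≠ 0 := by
    intro hx0
    rw [hx0, zero_smul] at d1
    exact hst (sub_eq_zero.mp d1)
  have d1' : γ t = γ s + x • e := by rw [← d1]; abel
  have hks := hk s
  have hkt := hk t
  rw [← he] at hks
  have e1 : det2 e (qv a b (γ t)) = x * det2 e (qD a b (γ s) e) + x ^ 2 * det2 e (qQ a b e) := by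
    have := geo_taylor a b (γ s) e x 0
    rw [zero_smul, add_zero, ← d1', ← he] at this
    rw [this]
    have h0 : det2 e e = 0 := by simp only [det2]; ring
    rw [h0]
    ring
  have e2 : det2 (qv a b (γ t)) (qD a b (γ t) (qv a b (γ t))) =
      m ^ 2 * (det2 e (qD a b (γ s) e) + 2 * x * det2 e (qQ a b e)) := by
    rw [d2, d1']
    simp only [det2, qD, qQ, Prod.fst_add, Prod.snd_add, Prod.smul_fst, Prod.smul_snd,
      smul_eq_mul]
    ring
  rw [h2] at e1
  rw [e2] at hkt
  have e3 : det2 e (qD a b (γ s) e) + x * det2 e (qQ a b e) = 0 := by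
    have : x * (det2 e (qD a b (γ s) e) + x * det2 e (qQ a b e)) = 0 := by linarith
    exact (mul_eq_zero.mp this).resolve_left hx0
  have e4 : det2 e (qD a b (γ s) e) + 2 * x * det2 e (qQ a b e) = -det2 e (qD a b (γ s) e) := by
    linarith
  rw [e4] at hkt
  nlinarith [sq_nonneg m]

theorem hasDerivAt_qv_comp {a b : Fin 6 → ℝ} {γ : ℝ → ℝ × ℝ} {w : ℝ × ℝ} {t : ℝ}
    (h : HasDerivAt γ w t) : HasDerivAt (fun t => qv a b (γ t)) (qD a b (γ t) w) t := by
  have h1 : HasDerivAt (fun t => (γ t).1) w.1 t :=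
    (hasFDerivAt_fst (p := γ t)).comp_hasDerivAt t h
  have h2 : HasDerivAt (fun t => (γ t).2) w.2 t :=
    (hasFDerivAt_snd (p := γ t)).comp_hasDerivAt t h
  have key : ∀ c : Fin 6 → ℝ, HasDerivAt
      (fun t => c 0 + c 1 * (γ t).1 + c 2 * (γ t).2 + c 3 * (γ t).1 ^ 2 +
        c 4 * ((γ t).1 * (γ t).2) + c 5 * (γ t).2 ^ 2)
      (c 1 * w.1 + c 2 * w.2 + 2 * c 3 * ((γ t).1 * w.1) +
        c 4 * ((γ t).1 * w.2 + (γ t).2 * w.1) + 2 * c 5 * ((γ t).2 * w.2)) t := by
    intro c
    have h3 := (((((h1.const_mul (c 1)).const_add (c 0)).add (h2.const_mul (c 2))).add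
      ((h1.pow 2).const_mul (c 3))).add ((h1.mul h2).const_mul (c 4))).add
      ((h2.pow 2).const_mul (c 5))
    refine h3.congr_deriv ?_
    ring
  exact (key a).prodMk (key b)

/-- local convexity, uniformly along the curve -/
theorem geo_local {D D1 D2 : ℝ → ℝ → ℝ} (hdD : ∀ s r, HasDerivAt (D s) (D1 s r) r)
    (hdD1 : ∀ s r, HasDerivAt (D1 s) (D2 s r) r) (h0 : ∀ s, D s 0 = 0) (h1 : ∀ s, D1 s 0 = 0)
    (h2 : ∀ s, 0 < D2 s 0) (hc : Continuous fun p : ℝ × ℝ => D2 p.1 p.2) {T : ℝ} (hT : 0 < T)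
    (hper : ∀ s, D2 (s + T) = D2 s) :
    ∃ δ, 0 < δ ∧ ∀ s r, r ≠ 0 → |r| < δ → 0 < D s r := by
  obtain ⟨δ, hδ, hsub⟩ := ((isCompact_Icc (a := (0 : ℝ)) (b := 0 + T)).prod
    (isCompact_singleton (x := (0 : ℝ)))).exists_thickening_subset_open
    (isOpen_lt continuous_const hc) (by
      rintro ⟨s, r⟩ ⟨-, hr⟩
      simp only [mem_singleton_iff] at hr
      subst hr
      exact h2 s)
  have hD2 : ∀ s r, |r| < δ → 0 < D2 s r := by
    intro s r hr
    have hp : Function.Periodic D2 T := hper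
    obtain ⟨t', ht', he⟩ := hp.exists_mem_Ico hT s 0
    rw [he]
    apply hsub (a := (t', r))
    rw [Metric.mem_thickening_iff]
    refine ⟨(t', 0), ⟨Ico_subset_Icc_self ht', rfl⟩, ?_⟩
    rw [Prod.dist_eq]
    simp only [dist_self, Real.dist_eq, sub_zero]
    rw [max_eq_right (abs_nonneg r)]
    exact hr
  refine ⟨δ, hδ, fun s r hr0 hr => ?_⟩
  have hm1 : StrictMonoOn (D1 s) (Ioo (-δ) δ) := by
    apply strictMonoOn_of_deriv_pos (convex_Ioo _ _)
    · exact fun x _ => (hdD1 s x).continuousAt.continuousWithinAt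
    · intro x hx
      rw [interior_Ioo] at hx
      rw [(hdD1 s x).deriv]
      exact hD2 s x (abs_lt.mpr hx)
  rcases lt_or_gt_of_ne hr0 with h | h
  · have hm : StrictAntiOn (D s) (Ioc (-δ) 0) := by
      apply strictAntiOn_of_deriv_neg (convex_Ioc _ _)
      · exact fun x _ => (hdD s x).continuousAt.continuousWithinAt
      · intro x hx
        rw [interior_Ioc] at hx
        rw [(hdD s x).deriv, ← h1 s]
        exact hm1 ⟨hx.1, by linarith [hx.2]⟩ ⟨by linarith, hδ⟩ hx.2
    rw [← h0 s]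
    exact hm ⟨(abs_lt.mp hr).1, h.le⟩ ⟨by linarith, le_rfl⟩ h
  · have hm : StrictMonoOn (D s) (Ico 0 δ) := by
      apply strictMonoOn_of_deriv_pos (convex_Ico _ _)
      · exact fun x _ => (hdD s x).continuousAt.continuousWithinAt
      · intro x hx
        rw [interior_Ico] at hx
        rw [(hdD s x).deriv, ← h1 s]
        exact hm1 ⟨by linarith, hδ⟩ ⟨by linarith [hx.1], hx.2⟩ hx.1
    rw [← h0 s]
    exact hm ⟨le_rfl, hδ⟩ ⟨h.le, (abs_lt.mp hr).2⟩ h

/-- (c) the curve is on the left hand side of each of its tangents -/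
theorem geo_convex_aux {a b : Fin 6 → ℝ} {γ : ℝ → ℝ × ℝ} {T : ℝ}
    (h : GeoCurve (qv a b) γ T) (hk : ∀ t, 0 < det2 (qv a b (γ t)) (qD a b (γ t) (qv a b (γ t))))
    (s r : ℝ) (hr : 0 < r) (hrT : r < T) : 0 < det2 (qv a b (γ s)) (γ (s + r) - γ s) := by
  have hTp := h.T_pos
  have hγc := h.cont
  have hvc : Continuous (qv a b) := (contDiff_qv a b (n := 1)).continuous
  have hDc : Continuous fun p : (ℝ × ℝ) × ℝ × ℝ => qD a b p.1 p.2 := by
    unfold qD
    fun_prop
  let D : ℝ → ℝ → ℝ := fun s r => det2 (qv a b (γ s)) (γ (s + r) - γ s)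
  let D1 : ℝ → ℝ → ℝ := fun s r => det2 (qv a b (γ s)) (qv a b (γ (s + r)))
  let D2 : ℝ → ℝ → ℝ := fun s r =>
    det2 (qv a b (γ s)) (qD a b (γ (s + r)) (qv a b (γ (s + r))))
  have hDcont : Continuous fun p : ℝ × ℝ => D p.1 p.2 := by
    simp only [D, det2]
    fun_prop
  have hD2cont : Continuous fun p : ℝ × ℝ => D2 p.1 p.2 := by
    have h1 : Continuous fun p : ℝ × ℝ => qD a b (γ (p.1 + p.2)) (qv a b (γ (p.1 + p.2))) :=
      hDc.comp (f := fun p : ℝ × ℝ => (γ (p.1 + p.2), qv a b (γ (p.1 + p.2)))) (by fun_prop)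
    simp only [D2, det2]
    fun_prop
  have hdD : ∀ s r, HasDerivAt (D s) (D1 s r) r := by
    intro s r
    have h1 : HasDerivAt (fun r => γ (s + r) - γ s) (qv a b (γ (s + r))) r :=
      ((h.deriv (s + r)).comp_const_add s r).sub_const (γ s)
    exact hasDerivAt_det2_right h1
  have hdD1 : ∀ s r, HasDerivAt (D1 s) (D2 s r) r := by
    intro s r
    exact hasDerivAt_det2_right ((hasDerivAt_qv_comp (h.deriv (s + r))).comp_const_add s r)
  have hD0 : ∀ s, D s 0 = 0 := by
    intro s
    simp [D, det2]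
  obtain ⟨δ0, hδ0, hloc⟩ := geo_local hdD hdD1 hD0 (fun s => by simp [D1, det2]; ring)
    (fun s => by simpa only [D2, add_zero] using hk s) hD2cont hTp (fun s => by
      funext r
      simp only [D2, h.per]
      rw [show s + T + r = s + r + T by ring, h.per])
  have hper : ∀ s r, D s (r + T) = D s r := by
    intro s r
    simp only [D]
    rw [show s + (r + T) = s + r + T by ring, h.per]
  set δ := min δ0 T / 3 with hδdef
  have hmin : 0 < min δ0 T := lt_min hδ0 hTp
  have hδ : 0 < δ := by positivity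
  have hδ1 : δ < δ0 := by
    have := min_le_left δ0 T
    linarith
  have hδT : 3 * δ ≤ T := by
    have := min_le_right δ0 T
    linarith
  have hKne : (Icc δ (T - δ)).Nonempty := ⟨δ, le_rfl, by linarith⟩
  let m : ℝ → ℝ := fun s => sInf (D s '' Icc δ (T - δ))
  have hmc : Continuous m := isCompact_Icc.continuous_sInf (f := D) hDcont
  have hmspec : ∀ s, ∃ x ∈ Icc δ (T - δ), m s = D s x ∧ ∀ y ∈ Icc δ (T - δ), D s x ≤ D s y :=
    fun s => isCompact_Icc.exists_sInf_image_eq_and_le hKne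
      (fun x _ => (hdD s x).continuousAt.continuousWithinAt)
  have hmne : ∀ s, m s ≠ 0 := by
    intro s hms
    obtain ⟨x, hx, hmx, hle⟩ := hmspec s
    rw [hms] at hmx
    have hx1 : x ≠ δ := by
      rintro rfl
      have := hloc s δ hδ.ne' (by rw [abs_of_pos hδ]; exact hδ1)
      rw [← hmx] at this
      exact lt_irrefl _ this
    have hx2 : x ≠ T - δ := by
      rintro rfl
      have h1 := hloc s (-δ) (by linarith) (by rw [abs_neg, abs_of_pos hδ]; exact hδ1)
      have h2 := hper s (-δ)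
      rw [show -δ + T = T - δ by ring, ← hmx] at h2
      rw [← h2] at h1
      exact lt_irrefl _ h1
    have hx3 : x ∈ Ioo δ (T - δ) :=
      ⟨lt_of_le_of_ne hx.1 (Ne.symm hx1), lt_of_le_of_ne hx.2 hx2⟩
    have hlm : IsLocalMin (D s) x := by
      filter_upwards [isOpen_Ioo.mem_nhds hx3] with y hy
      exact hle y (Ioo_subset_Icc_self hy)
    have hd0 : D1 s x = 0 := hlm.hasDerivAt_eq_zero (hdD s x)
    exact geo_no_bitangent h hk (h.inj s x (by linarith [hx3.1]) (by linarith [hx3.2]))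
      hmx.symm hd0
  -- the lowest point
  obtain ⟨s0, hs0⟩ := h.exists_max (f := fun z => -z.2) (by fun_prop)
  have hv0 : (qv a b (γ s0)).2 = 0 := by
    have h1 : HasDerivAt (fun t => -(γ t).2) (-(qv a b (γ s0)).2) s0 :=
      ((hasFDerivAt_snd (p := γ s0)).comp_hasDerivAt s0 (h.deriv s0)).neg
    have h2 : IsLocalMax (fun t => -(γ t).2) s0 := Filter.Eventually.of_forall fun t => hs0 t
    have h3 := h2.hasDerivAt_eq_zero h1
    linarith
  have hDs0 : ∀ r, D s0 r = (qv a b (γ s0)).1 * ((γ (s0 + r)).2 - (γ s0).2) := by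
    intro r
    simp only [D, det2, hv0, Prod.snd_sub]
    ring
  have hm0 : 0 < m s0 := by
    have h1 := hloc s0 δ hδ.ne' (by rw [abs_of_pos hδ]; exact hδ1)
    rw [hDs0] at h1
    have h2 : 0 ≤ (γ (s0 + δ)).2 - (γ s0).2 := by
      have := hs0 (s0 + δ)
      linarith
    have h3 : 0 < (qv a b (γ s0)).1 := by
      by_contra hcon
      push Not at hcon
      nlinarith
    obtain ⟨x, hx, hmx, hle⟩ := hmspec s0
    have h4 : 0 ≤ m s0 := by
      rw [hmx, hDs0]
      have := hs0 (s0 + x)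
      apply mul_nonneg h3.le
      linarith
    exact lt_of_le_of_ne h4 (Ne.symm (hmne s0))
  have hmpos : ∀ s, 0 < m s := by
    intro s
    by_contra hcon
    push Not at hcon
    obtain ⟨c, hc⟩ := mem_range_of_exists_le_of_exists_ge hmc ⟨s, hcon⟩ ⟨s0, hm0.le⟩
    exact hmne c hc
  -- conclusion
  rcases lt_or_ge r δ with h1 | h1
  · exact hloc s r hr.ne' (by rw [abs_of_pos hr]; linarith)
  rcases lt_or_ge (T - δ) r with h2 | h2
  · have h3 := hloc s (r - T) (by linarith) (by
      rw [abs_of_neg (by linarith)]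
      linarith)
    have h4 := hper s (r - T)
    rw [sub_add_cancel] at h4
    rw [← h4] at h3
    exact h3
  · obtain ⟨x, hx, hmx, hle⟩ := hmspec s
    have h3 := hmpos s
    rw [hmx] at h3
    exact h3.trans_le (hle r ⟨h1, h2⟩)

/-- (c) the points of a closed orbit are strictly on one side of each tangent -/
theorem geo_convex {a b : Fin 6 → ℝ} {C : Set (ℝ × ℝ)} (hC : IsClosedOrbit (qv a b) C) :
    ∃ sg : ℝ, (sg = 1 ∨ sg = -1) ∧ ∀ z ∈ C, ∀ w ∈ C, w ≠ z →
      0 < sg * det2 (qv a b z) (w - z) := by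
  obtain ⟨γ, T, h, hCr⟩ := exists_geoCurve (contDiff_qv a b) hC
  have hTp := h.T_pos
  have hγc := h.cont
  have hvc : Continuous (qv a b) := (contDiff_qv a b (n := 1)).continuous
  have hDc : Continuous fun p : (ℝ × ℝ) × ℝ × ℝ => qD a b p.1 p.2 := by
    unfold qD
    fun_prop
  let κ : ℝ → ℝ := fun t => det2 (qv a b (γ t)) (qD a b (γ t) (qv a b (γ t)))
  have hκc : Continuous κ := by
    have h1 : Continuous fun t : ℝ => qD a b (γ t) (qv a b (γ t)) :=
      hDc.comp (f := fun t : ℝ => (γ t, qv a b (γ t))) (by fun_prop)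
    simp only [κ, det2]
    fun_prop
  have hκ : ∀ t, κ t ≠ 0 := fun t => geo_no_inflection h t
  have hsign : (∀ t, 0 < κ t) ∨ ∀ t, κ t < 0 := by
    rcases lt_or_gt_of_ne (hκ 0) with h0 | h0
    · right
      intro t
      by_contra hcon
      push Not at hcon
      obtain ⟨c, hc⟩ := mem_range_of_exists_le_of_exists_ge hκc ⟨0, h0.le⟩ ⟨t, hcon⟩
      exact hκ c hc
    · left
      intro t
      by_contra hcon
      push Not at hcon
      obtain ⟨c, hc⟩ := mem_range_of_exists_le_of_exists_ge hκc ⟨t, hcon⟩ ⟨0, h0.le⟩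
      exact hκ c hc
  have hpts : ∀ z ∈ C, ∀ w ∈ C, w ≠ z → ∃ s r : ℝ, 0 < r ∧ r < T ∧ γ s = z ∧ γ (s + r) = w := by
    intro z hz w hw hne
    rw [hCr] at hz hw
    obtain ⟨s, rfl⟩ := hz
    obtain ⟨t, rfl⟩ := hw
    obtain ⟨t', ht', he⟩ := h.exists_mem s t
    have hr0 : 0 < t' - s := by
      rcases ht'.1.eq_or_lt with h1 | h1
      · exfalso
        apply hne
        rw [← he, ← h1]
      · linarith
    exact ⟨s, t' - s, hr0, by linarith [ht'.2], rfl, by rw [← he]; congr 1; ring⟩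
  rcases hsign with hp | hn
  · refine ⟨1, Or.inl rfl, fun z hz w hw hne => ?_⟩
    obtain ⟨s, r, hr, hrT, rfl, rfl⟩ := hpts z hz w hw hne
    rw [one_mul]
    exact geo_convex_aux h hp s r hr hrT
  · -- reversed time
    have h' : GeoCurve (qv (-a) (-b)) (fun t => γ (-t)) T := by
      rw [qv_neg]
      refine ⟨hTp, fun t => ?_, fun t => ?_, fun s r hr hrT => ?_, fun t => ?_⟩
      · have h1 := (h.deriv (-t)).scomp t (hasDerivAt_neg t)
        rw [neg_one_smul] at h1
        exact h1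
      · have h1 := h.per (-(t + T))
        rw [← h1]
        congr 1
        ring
      · have h1 := h.inj (-(s + r)) r hr hrT
        intro h2
        apply h1
        rw [h2]
        congr 1
        ring
      · exact neg_ne_zero.mpr (h.ne (-t))
    refine ⟨-1, Or.inr rfl, fun z hz w hw hne => ?_⟩
    obtain ⟨s, r, hr, hrT, hs, hsr⟩ := hpts w hw z hz (Ne.symm hne)
    have h1 := geo_convex_aux h' (fun t => by
      rw [qD_neg, qv_neg]
      have h2 := hn (-t)
      simp only [κ] at h2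
      have h3 : det2 (-qv a b (γ (-t))) (-qD a b (γ (-t)) (-qv a b (γ (-t)))) =
          -det2 (qv a b (γ (-t))) (qD a b (γ (-t)) (qv a b (γ (-t)))) := by
        simp only [det2, qD, Prod.fst_neg, Prod.snd_neg]
        ring
      simp only
      rw [h3]
      linarith) (-(s + r)) r hr hrT
    simp only [qv_neg, neg_neg] at h1
    rw [show -(-(s + r) + r) = s by ring, hs, hsr] at h1
    have h4 : det2 (-qv a b z) (w - z) = -1 * det2 (qv a b z) (w - z) := by
      simp only [det2, Prod.fst_neg, Prod.snd_neg]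
      ring
    rw [← h4]
    exact h1

/-- (d) A closed orbit of a quadratic planar field is a strictly convex curve, and it is
star-shaped around a zero of the field. -/
theorem quad_star {a b : Fin 6 → ℝ} {C : Set (ℝ × ℝ)} (hC : IsClosedOrbit (qv a b) C) :
    ∃ q ∈ convexHull ℝ C, qv a b q = 0 ∧ ∃ sg : ℝ, (sg = 1 ∨ sg = -1) ∧
      (∀ z ∈ C, ∀ w ∈ C, w ≠ z → 0 < sg * det2 (qv a b z) (w - z)) ∧
      ∀ z ∈ C, 0 < sg * det2 (z - q) (qv a b z) := by
  obtain ⟨q, hq, hvq⟩ := exists_zero_in_hull (contDiff_qv a b) hC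
  obtain ⟨sg, hsg, hconv⟩ := geo_convex hC
  refine ⟨q, hq, hvq, sg, hsg, hconv, fun z hz => ?_⟩
  -- the half plane together with the point `z`
  let S : Set (ℝ × ℝ) := {w | w = z ∨ 0 < sg * det2 (qv a b z) (w - z)}
  have hS : Convex ℝ S := by
    intro x hx y hy c d hc hd hcd
    have hlin : sg * det2 (qv a b z) (c • x + d • y - z) =
        c * (sg * det2 (qv a b z) (x - z)) + d * (sg * det2 (qv a b z) (y - z)) := by
      have hd' : d = 1 - c := by linarith
      subst hd'
      simp only [det2, Prod.fst_sub, Prod.snd_sub, Prod.fst_add, Prod.snd_add, Prod.smul_fst,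
        Prod.smul_snd, smul_eq_mul]
      ring
    have h00 : sg * det2 (qv a b z) (z - z) = 0 := by
      simp [det2]
    rcases hx with rfl | hx
    · rcases hy with rfl | hy
      · left
        rw [← add_smul, hcd, one_smul]
      · rcases hd.eq_or_lt with h0 | h0
        · left
          rw [← h0] at hcd ⊢
          rw [add_zero] at hcd
          rw [hcd, one_smul, zero_smul, add_zero]
        · right
          rw [hlin, h00, mul_zero, zero_add]
          positivity
    · rcases hy with rfl | hy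
      · rcases hc.eq_or_lt with h0 | h0
        · left
          rw [← h0] at hcd ⊢
          rw [zero_add] at hcd
          rw [hcd, one_smul, zero_smul, zero_add]
        · right
          rw [hlin, h00, mul_zero, add_zero]
          positivity
      · right
        rw [hlin]
        rcases hc.eq_or_lt with h0 | h0
        · have : d = 1 := by linarith
          rw [← h0, this]
          linarith
        · have h1 : 0 < c * (sg * det2 (qv a b z) (x - z)) := mul_pos h0 hx
          have h2 : 0 ≤ d * (sg * det2 (qv a b z) (y - z)) := mul_nonneg hd hy.le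
          linarith
  have hCS : C ⊆ S := by
    intro w hw
    rcases eq_or_ne w z with h | h
    · exact Or.inl h
    · exact Or.inr (hconv z hz w hw h)
  have hqS : q ∈ S := convexHull_min hCS hS hq
  have hne : qv a b z ≠ 0 := hC.ne_zero_of_contDiff (contDiff_qv a b) hz
  rcases hqS with h | h
  · exact absurd (h ▸ hvq) hne
  · have h1 : det2 (z - q) (qv a b z) = det2 (qv a b z) (q - z) := by
      simp only [det2, Prod.fst_sub, Prod.snd_sub]
      ring
    rw [h1]
    exact h

end Pool.Agent.Lib.MP_95e7ec_an
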